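import Pool.Agent.Lib.MP_490a28_an.Defs
import Pool.Agent.Lib.MP_490a28_an.Main

/-!
# The means of a convex potential need not increase along the Dirichlet eigenfunctions

For the convex potential `V x = ε |x - π/2|` on the interval `(0, π)`, with `0 < ε ≤ 1/300`, there
is an admissible eigenbasis, and in each admissible eigenbasis the mean of `V` in the third
eigenstate is strictly smaller than the mean in the second one.
(The indices `0, 1, 2` of Lean are the indices `1, 2, 3` of the usual enumeration.)
-/

set_option autoImplicit false

open Set Real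

namespace Pool.Agent.Results.MP_490a28_an.TentPotentialMeansNotMonotone

open Pool.Agent.Lib.MP_490a28_an

theorem result (ε : ℝ) (hε : 0 < ε) (hε' : ε ≤ 1 / 300) :
    ConvexOn ℝ (Ioo 0 π) (fun x => ε * |x - π / 2|) ∧
      (∃ u lam, IsAdmissibleEigenbasis (fun x => ε * |x - π / 2|) 0 π u lam) ∧
      ∀ u lam, IsAdmissibleEigenbasis (fun x => ε * |x - π / 2|) 0 π u lam →
        potentialMean (fun x => ε * |x - π / 2|) 0 π (u 2)
          < potentialMean (fun x => ε * |x - π / 2|) 0 π (u 1) :=
  main hε hε'

end Pool.Agent.Results.MP_490a28_an.TentPotentialMeansNotMonotone
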